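import Mathlib
import Pool.Agent.W811.Stu.Stmts4

/-!
The next state.
-/

set_option autoImplicit false

namespace Pool.Agent.W101.Stu

open Pool.Agent.W811.Stu

theorem holn (h1 : TRatio) (h2 : THyp) : THN := by
  intro lam hlam K0 hK0
  have hδ : lam / 2 ≠ 0 := by positivity
  obtain ⟨Cr, hCr, hr⟩ := h1 lam hlam K0
  obtain ⟨_, hyp⟩ := h2 (lam / 2) 1 1 hδ zero_le_one (one_lt_cc hδ)
  refine ⟨Cr, hCr, ?_⟩
  intro d n hd E0 hE0 j0 hj0 s hs
  have hβ : ∀ k, 1 ≤ sh d n k := fun k => hd _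
  generalize hβdef : sh d n = β at *
  set p := lin lam E0 with hp
  have hpow : ∀ i : ℕ, (1:ℝ) ≤ (1 + (β i : ℝ)) ^ 3 := fun i =>
    one_le_pow₀ (by have : (0:ℝ) ≤ β i := Nat.cast_nonneg _; linarith)
  cases s with
  | Y j =>
    obtain ⟨hj, hy⟩ := hs
    obtain ⟨hA, -⟩ := hr β hβ E0 hE0 j (by omega)
    obtain ⟨hA1, hA2⟩ := hA hy
    by_cases hy1 : |(orb β p (j + 1)).y| ≤ 1
    · refine ⟨.Y (j + 1), ⟨by omega, hy1⟩, ?_, hA1, ?_⟩
      · show (j:ℝ) < ((j + 1 : ℕ) : ℝ)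
        push_cast; linarith
      · intro E1 E1' _ hnot
        unfold St.Ok at hnot
        simp only [hβdef] at hnot
        push Not at hnot
        exact hnot
    · have hy2 : |(orb β p (j + 2)).y| ≤ 1 := (hE0 (j + 1)).resolve_left hy1
      by_cases hk : β (j + 1) ≤ K0
      · refine ⟨.Y (j + 2), ⟨by omega, hy2⟩, ?_, hA2 _ hk, ?_⟩
        · show (j:ℝ) < ((j + 2 : ℕ) : ℝ)
          push_cast; linarith
        · intro E1 E1' _ hnot
          unfold St.Ok at hnot
          simp only [hβdef] at hnot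
          push Not at hnot
          exact hnot
      · refine ⟨.T (j + 1) K0, ⟨by omega, not_le.1 hy1, le_rfl, not_le.1 hk⟩, ?_, ?_, ?_⟩
        · show (j:ℝ) < ((j + 1 : ℕ) : ℝ) + (K0:ℝ) / ((β (j + 1) : ℝ) + 1)
          have : (0:ℝ) ≤ (K0:ℝ) / ((β (j + 1) : ℝ) + 1) := by positivity
          push_cast; linarith
        · show |Vy (Function.update β (j + 1) K0) (j + 1 + 1) p| ≤ _
          rw [Vt_eq_Vy]
          exact hA2 K0 le_rfl
        · intro E1 E1' hok hnot
          unfold St.Ok at hnot hok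
          simp only [hβdef] at hnot hok
          push Not at hnot
          obtain ⟨e, he, h⟩ := hnot
          refine ⟨e, he, ?_⟩
          show _ < |(orb (Function.update β (j + 1) K0) (Ga lam d n e) (j + 1 + 1)).y|
          rw [tf_eq_orb]
          by_contra hlt
          exact absurd (h (not_lt.1 hlt)) (not_lt.2 (hok e he))
  | T j k =>
    obtain ⟨hj, hy, hk, hkβ⟩ := hs
    obtain ⟨i, rfl⟩ : ∃ i, j = i + 1 := ⟨j - 1, by omega⟩
    have hyi : |(orb β p i).y| ≤ 1 := (hE0 i).resolve_right (not_le.2 hy)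
    have hyj : |(orb β p (i + 1 + 1)).y| ≤ 1 := (hE0 (i + 1)).resolve_left (not_le.2 hy)
    obtain ⟨hb, -⟩ := hyp (orb β p (i + 1)) (β (i + 1)) ((onS_lin lam E0).orb β (i + 1)) hy
      (by rw [orb_succ_z]; exact hyi) hyj
    have ht : |tf β (i + 1) k p| ≤ 1 := hb k hkβ.le
    obtain ⟨-, hB⟩ := hr β hβ E0 hE0 (i + 1) (by omega)
    have hB1 := hB k (by omega) ht
    have hVt : |Vt β (i + 1) (k + 1) p| ≤ Cr * (1 + (β (i + 1 + 1) : ℝ)) ^ 3 * |Vt β (i + 1) k p| := by
      refine hB1.trans (mul_le_mul_of_nonneg_right ?_ (abs_nonneg _))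
      have := hpow (i + 1 + 1)
      nlinarith
    by_cases hk1 : k + 1 < β (i + 1)
    · refine ⟨.T (i + 1) (k + 1), ⟨hj, hy, by omega, hk1⟩, ?_, ?_, ?_⟩
      · show ((i + 1 : ℕ) : ℝ) + (k : ℝ) / ((β (i + 1) : ℝ) + 1)
          < ((i + 1 : ℕ) : ℝ) + ((k + 1 : ℕ) : ℝ) / ((β (i + 1) : ℝ) + 1)
        have : (0:ℝ) < (β (i + 1) : ℝ) + 1 := by positivity
        have h3 : (k : ℝ) / ((β (i + 1) : ℝ) + 1) < ((k + 1 : ℕ) : ℝ) / ((β (i + 1) : ℝ) + 1) :=
          div_lt_div_of_pos_right (by push_cast; linarith) this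
        linarith
      · show |Vy (Function.update β (i + 1) (k + 1)) (i + 1 + 1) p|
          ≤ Cr * (1 + (β (i + 1 + 1) : ℝ)) ^ 3 * |Vy (Function.update β (i + 1) k) (i + 1 + 1) p|
        rw [Vt_eq_Vy, Vt_eq_Vy]
        exact hVt
      · intro E1 E1' hok hnot
        unfold St.Ok at hnot hok
        simp only [hβdef] at hnot hok
        push Not at hnot
        obtain ⟨e, he, h⟩ := hnot
        refine ⟨e, he, ?_⟩
        show _ < |(orb (Function.update β (i + 1) (k + 1)) (Ga lam d n e) (i + 1 + 1)).y|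
        rw [tf_eq_orb]
        by_contra hlt
        exact absurd (h (not_lt.1 hlt)) (not_lt.2 (hok e he).2)
    · have hkeq : k + 1 = β (i + 1) := by omega
      refine ⟨.Y (i + 1 + 1), ⟨by omega, hyj⟩, ?_, ?_, ?_⟩
      · show ((i + 1 : ℕ) : ℝ) + (k : ℝ) / ((β (i + 1) : ℝ) + 1) < ((i + 1 + 1 : ℕ) : ℝ)
        have h0 : (0:ℝ) < (β (i + 1) : ℝ) + 1 := by positivity
        have h3 : (k : ℝ) / ((β (i + 1) : ℝ) + 1) < 1 := by
          rw [div_lt_one h0]
          have : (k : ℝ) < (β (i + 1) : ℝ) := by exact_mod_cast hkβ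
          linarith
        push_cast at h3 ⊢
        linarith
      · show |Vy β (i + 1 + 1) p|
          ≤ Cr * (1 + (β (i + 1 + 1) : ℝ)) ^ 3 * |Vy (Function.update β (i + 1) k) (i + 1 + 1) p|
        rw [Vt_eq_Vy, Vy_succ, ← hkeq]
        exact hVt
      · intro E1 E1' _ hnot
        unfold St.Ok at hnot
        simp only [hβdef] at hnot
        push Not at hnot
        exact hnot

end Pool.Agent.W101.Stu
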