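import Mathlib
import Pool.Agent.W811.Stu.Stmts3
import Pool.Agent.W308.Stu.Bdd

/-!
Ratios of successive derivatives on the spectrum.
-/

set_option autoImplicit false

namespace Pool.Agent.W101.Stu

open Pool.Agent.W811.Stu

/-- the word of `stepR^[k] (orb d · j)` -/
lemma word (d : ℕ → ℕ) (hd : ∀ k, 1 ≤ d k) (j k : ℕ) :
    ∃ w : List Mv, (∀ p, stepR^[k + 1] (orb d p (j + 1)) = run (Mv.R :: (w ++ [Mv.R])) p) ∧
      ∀ p u, dRk (k + 1) (orb d p (j + 1)) (dorb d p u (j + 1))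
        = drun (Mv.R :: (w ++ [Mv.R])) p u := by
  obtain ⟨w, hw⟩ := Wd_head d hd j
  have e : Mv.R :: ((w ++ List.replicate k Mv.R) ++ [Mv.R])
      = Wd d (j + 1) ++ List.replicate (k + 1) Mv.R := by
    rw [hw, List.replicate_succ']; simp
  refine ⟨w ++ List.replicate k Mv.R, fun p => ?_, fun p u => ?_⟩
  · rw [e, run_append, run_Wd, run_rep]
  · rw [e, drun_append, run_Wd, drun_Wd, drun_rep]

lemma revUse (h1 : TRev) {lam : ℝ} (hlam : 0 < lam) {d : ℕ → ℕ} (hd : ∀ k, 1 ≤ d k) (E : ℝ)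
    {j k : ℕ} (hj : 1 ≤ j) (hk : 1 ≤ k) (ht : |tf d j k (lin lam E)| ≤ 1) :
    |(dRk k (orb d (lin lam E) j) (dorb d (lin lam E) (fV (lin lam E)) j)).y|
        ≤ N0 (lam / 2) 1 * |Vt d j k (lin lam E)| ∧
      |(dRk k (orb d (lin lam E) j) (dorb d (lin lam E) (fV (lin lam E)) j)).x|
        ≤ (2 * |(orb d (lin lam E) j).y| + 3 * N0 (lam / 2) 1) * |Vt d j k (lin lam E)| := by
  obtain ⟨j, rfl⟩ : ∃ i, j = i + 1 := ⟨j - 1, by omega⟩
  obtain ⟨k, rfl⟩ : ∃ i, k = i + 1 := ⟨k - 1, by omega⟩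
  obtain ⟨w, hw1, hw2⟩ := word d hd j k
  have hδ : lam / 2 ≠ 0 := by positivity
  have hδ2 : 0 < (lam / 2) ^ 2 := by positivity
  have hN := N0_ge hδ zero_le_one (by linarith : (1:ℝ) < 1 + (lam / 2) ^ 2)
  have hz : (stepR^[k + 1] (orb d (lin lam E) (j + 1))).z ^ 2 ≤ 1 := by
    have : |(stepR^[k + 1] (orb d (lin lam E) (j + 1))).z| ≤ 1 := ht
    rw [← sq_abs]
    nlinarith [abs_nonneg (stepR^[k + 1] (orb d (lin lam E) (j + 1))).z]
  have h := h1 (lam / 2) 1 hδ zero_le_one (by linarith) w (lin lam E)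
    (stepR^[k + 1] (orb d (lin lam E) (j + 1)))
    (dRk (k + 1) (orb d (lin lam E) (j + 1)) (dorb d (lin lam E) (fV (lin lam E)) (j + 1)))
    (onS_lin lam E) (by
      have : (lin lam E).z = 1 := rfl
      rw [this]; linarith) (hw1 _) (hw2 _ _) hz
  refine ⟨h.1, h.2.trans ?_⟩
  refine mul_le_mul_of_nonneg_right ?_ (abs_nonneg _)
  rw [iter_y]
  have h3 : |(stepR^[k + 1] (orb d (lin lam E) (j + 1))).z| ≤ 1 := ht
  nlinarith [abs_nonneg (stepR^[k + 1] (orb d (lin lam E) (j + 1))).z]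

/-- comps bounded by -/
def Bd (u : P3) (W : ℝ) : Prop := |u.z| ≤ W ∧ |u.y| ≤ W ∧ |u.x| ≤ W

lemma elem (C0 : ℝ) (hC0 : 0 ≤ C0) (k : ℕ) : ∃ B G : ℝ, 0 ≤ B ∧ 0 ≤ G ∧ ∀ q : P3, Bd q C0 →
    Bd (stepR^[k] q) B ∧ ∀ (u : P3) (W : ℝ), Bd u W → Bd (dRk k q u) (G * W) := by
  induction k with
  | zero =>
    refine ⟨C0, 1, hC0, zero_le_one, fun q hq => ⟨hq, fun u W hu => ?_⟩⟩
    rw [one_mul]; exact hu
  | succ k ih =>
    obtain ⟨B, G, hB, hG, ih⟩ := ih
    refine ⟨2 * B * B + B, (4 * B + 1) * G, by positivity, by positivity, fun q hq => ?_⟩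
    obtain ⟨h1, h2⟩ := ih q hq
    constructor
    · rw [Function.iterate_succ_apply']
      obtain ⟨a, b, c⟩ := h1
      have hBB : 0 ≤ 2 * B * B := by positivity
      refine ⟨?_, ?_, ?_⟩
      · show |(stepR^[k] q).x| ≤ _
        linarith
      · show |(stepR^[k] q).y| ≤ _
        linarith
      · show |2 * (stepR^[k] q).x * (stepR^[k] q).y - (stepR^[k] q).z| ≤ _
        refine (abs_sub _ _).trans ?_
        rw [abs_mul, abs_mul, abs_two]
        have : |(stepR^[k] q).x| * |(stepR^[k] q).y| ≤ B * B :=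
          mul_le_mul c b (abs_nonneg _) hB
        nlinarith
    · intro u W hu
      have h3 := h2 u W hu
      obtain ⟨a, b, c⟩ := h1
      obtain ⟨a', b', c'⟩ := h3
      have hGW : 0 ≤ G * W := (abs_nonneg _).trans a'
      have hBW : 0 ≤ 4 * B * (G * W) := by positivity
      refine ⟨?_, ?_, ?_⟩
      · show |(dRk k q u).x| ≤ _
        nlinarith
      · show |(dRk k q u).y| ≤ _
        nlinarith
      · show |2 * (stepR^[k] q).y * (dRk k q u).x + 2 * (stepR^[k] q).x * (dRk k q u).y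
          - (dRk k q u).z| ≤ _
        refine (abs_sub _ _).trans ?_
        have t1 : |2 * (stepR^[k] q).y * (dRk k q u).x + 2 * (stepR^[k] q).x * (dRk k q u).y|
            ≤ 2 * (B * (G * W)) + 2 * (B * (G * W)) := by
          refine (abs_add_le _ _).trans ?_
          rw [abs_mul, abs_mul, abs_mul, abs_mul, abs_two]
          have e1 : |(stepR^[k] q).y| * |(dRk k q u).x| ≤ B * (G * W) :=
            mul_le_mul b c' (abs_nonneg _) hB
          have e2 : |(stepR^[k] q).x| * |(dRk k q u).y| ≤ B * (G * W) :=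
            mul_le_mul c b' (abs_nonneg _) hB
          nlinarith
        nlinarith

theorem ratio (h1 : TRev) (h2 : TEll) : TRatio := by
  intro lam hlam K0
  have hδ : lam / 2 ≠ 0 := by positivity
  have hδ2 : 0 < (lam / 2) ^ 2 := by positivity
  have hN := N0_ge hδ zero_le_one (by linarith : (1:ℝ) < 1 + (lam / 2) ^ 2)
  set N := N0 (lam / 2) 1 with hNdef
  obtain ⟨C0', hC0'⟩ := Pool.Agent.W308.Stu.tBdd lam hlam
  set C0 := max C0' 0 with hC0def
  have hC0 : 0 ≤ C0 := le_max_right _ _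
  have hbd : ∀ d : ℕ → ℕ, (∀ k, 1 ≤ d k) → ∀ E ∈ Sp lam d, ∀ m,
      Bd (orb d (lin lam E) m) C0 := by
    intro d hd E hE m
    obtain ⟨a, b, c⟩ := hC0' d hd E hE m
    exact ⟨a.trans (le_max_left _ _), b.trans (le_max_left _ _), c.trans (le_max_left _ _)⟩
  obtain ⟨C', hC', hell⟩ := h2 (lam / 2) C0 hC0
  choose B G hB hG hel using elem C0 hC0
  set S := ∑ k ∈ Finset.range (K0 + 1), G k with hS
  have hS0 : 0 ≤ S := Finset.sum_nonneg fun k _ => hG k
  have hSk : ∀ k ≤ K0, G k ≤ S := fun k hk =>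
    Finset.single_le_sum (f := G) (fun i _ => hG i) (Finset.mem_range.2 (by omega))
  set C1 := 2 * C0 + 3 * N with hC1
  have hC1p : 0 ≤ C1 := by positivity
  refine ⟨1 + C1 + C' * C1 + S * (C' * C1), ?_, ?_⟩
  · have : 0 ≤ C' * C1 := by positivity
    have : 0 ≤ S * (C' * C1) := by positivity
    linarith
  intro d hd E hE j hj
  have hCC : 0 ≤ C' * C1 := by positivity
  have hSCC : 0 ≤ S * (C' * C1) := by positivity
  constructor
  · intro hy
    obtain ⟨i, rfl⟩ : ∃ i, j = i + 1 := ⟨j - 1, by omega⟩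
    have hr := revUse h1 hlam hd E (j := i) (k := d i) (by omega) (hd i) hy
    set p := lin lam E with hp
    have hV : Vt d i (d i) p = Vy d (i + 1) p := rfl
    rw [hV] at hr
    set V := |Vy d (i + 1) p| with hVdef
    have hV0 : 0 ≤ V := abs_nonneg _
    have hyi := (hbd d hd E hE i).2.1
    have hv : Bd (dorb d p (fV p) (i + 1)) (C1 * V) := by
      refine ⟨?_, ?_, ?_⟩
      · show |(dRk (d i) (orb d p i) (dorb d p (fV p) i)).y| ≤ _
        refine hr.1.trans ?_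
        refine mul_le_mul_of_nonneg_right ?_ hV0
        rw [hC1]; linarith
      · show |Vy d (i + 1) p| ≤ _
        have : (1:ℝ) ≤ C1 := by rw [hC1]; linarith
        rw [← hVdef]
        nlinarith
      · show |(dRk (d i) (orb d p i) (dorb d p (fV p) i)).x| ≤ _
        refine hr.2.trans ?_
        refine mul_le_mul_of_nonneg_right ?_ hV0
        rw [hC1]; linarith
    have hbj := hbd d hd E hE (i + 1)
    have he := hell (orb d p (i + 1)) (dorb d p (fV p) (i + 1)) (d (i + 1)) (C1 * V)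
      ((onS_lin lam E).orb d (i + 1)) hy hbj.1 hbj.2.2 hv.1 hv.2.1 hv.2.2
    have hD : (0:ℝ) ≤ (1 + (d (i + 1) : ℝ)) ^ 3 := by positivity
    have hv2 : Bd (dorb d p (fV p) (i + 1 + 1)) (C' * (1 + (d (i + 1) : ℝ)) ^ 3 * (C1 * V)) :=
      ⟨he.2.1, he.1, he.2.2⟩
    have hDV : 0 ≤ (1 + (d (i + 1) : ℝ)) ^ 3 * V := mul_nonneg hD hV0
    constructor
    · refine hv2.2.1.trans ?_
      have : C' * (1 + (d (i + 1) : ℝ)) ^ 3 * (C1 * V)
        = (C' * C1) * ((1 + (d (i + 1) : ℝ)) ^ 3 * V) := by ring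
      rw [this, mul_assoc (1 + C1 + C' * C1 + S * (C' * C1))]
      refine mul_le_mul_of_nonneg_right ?_ hDV
      linarith
    · intro k hk
      have hk2 := (hel k (orb d p (i + 1 + 1)) (hbd d hd E hE (i + 1 + 1))).2 _ _ hv2
      refine hk2.1.trans ?_
      have : G k * (C' * (1 + (d (i + 1) : ℝ)) ^ 3 * (C1 * V))
        = (G k * (C' * C1)) * ((1 + (d (i + 1) : ℝ)) ^ 3 * V) := by ring
      rw [this, mul_assoc (1 + C1 + C' * C1 + S * (C' * C1))]
      refine mul_le_mul_of_nonneg_right ?_ hDV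
      have := mul_le_mul_of_nonneg_right (hSk k hk) hCC
      linarith
  · intro k hk ht
    have hr := revUse h1 hlam hd E (j := j) (k := k) (by omega) hk ht
    have hyj := (hbd d hd E hE j).2.1
    refine hr.2.trans ?_
    refine mul_le_mul_of_nonneg_right ?_ (abs_nonneg _)
    linarith

end Pool.Agent.W101.Stu
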